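import Pool.Agent.MTO.Stmts
import Pool.Agent.Helper32_MTF.Cdl

/-! Module CDE: the codimension bound, even weight. -/

set_option autoImplicit false

namespace Pool.Agent.MTO.H90

open Matrix

variable {d : Type} [Fintype d] [DecidableEq d]

theorem HE_unit {w : ℕ} {Ψ : Matrix d d ℂ} {V : ℕ → Submodule ℂ (d → ℂ)}
    {m : Submodule ℂ (Matrix d d ℂ)} (h : HE w Ψ V m) : IsUnit Ψ.det := by
  rw [isUnit_iff_ne_zero]
  intro h0
  obtain ⟨v, hv, hv0⟩ := Matrix.exists_mulVec_eq_zero_iff.2 h0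
  exact MTF.H32.HL_left h.top h.span h.conj h.orth h.pos hv hv0

theorem cde (hcre : CreStmt) (hext : ExtStmt) (hire : IreStmt) (hspe : SpeStmt)
    (hlae : LaeStmt) : CdeStmt := by
  intro d _ _ w Ψ V g hg κ m hκ hm hdep
  rcases hcre d w Ψ V g hg with h1 | ⟨U, U', h1, h2, h3, h4, h5, h6⟩ |
    ⟨U, U', h1, h2, h3, h4, h5, h6⟩
  · obtain ⟨x, hx1, hx2, hx3⟩ := hire d w Ψ V g hg κ m hκ hm hdep
    exact hext d Ψ hg.symm (HE_unit hg) g hg.br hg.le h1 x hx1 hx2 hx3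
  · have hκ' : ∀ p, Module.finrank ℂ (V p) ≤ κ := by
      intro p
      by_cases hp : p ≤ w
      · exact (Submodule.finrank_mono (le_sup_left : V p ≤ V p ⊔ V (w - p))).trans (hκ p hp)
      · rw [hg.top p (by omega), finrank_bot]
        exact Nat.zero_le _
    have := hspe d w Ψ V g hg κ m hκ' hdep U U' h1 h2 h3 h4 h5 h6
    omega
  · have := hlae d w Ψ V g hg κ m hκ hdep U U' h1 h2 h3 h4 h5 h6
    omega

end Pool.Agent.MTO.H90
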